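import Pool.Agent.McT.P.MainZ

/-!
# Central sequences of a tensor product which come from the factors are central

Let `A`, `B` be finite factors with separable predual (C*-algebras with a faithful tracial state,
2-norm complete unit ball, trivial centre, 2-norm separable), neither of them McDuff (their central
sequences commute), and `D = A ⊗ B` (commuting copies which generate `D` in the 2-norm, product
trace). Let `f` be a central sequence of `D` which for every `ε > 0` is within `ε` in the 2-norm
of a multiple (by a constant) of a sum of a bounded number of elements which are sandwiches over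
both factors: `∑ α_l X_l β_l`, `X_l` in the unit ball of one factor, `α` a row contraction and `β`
a column contraction of elements of the other factor. Then `‖f_n g_n - g_n f_n‖₂ → 0` for every
central sequence `g` of `D`. This covers all central sequences which lie in the algebra generated
by `A^ω` and `B^ω`.
-/

set_option autoImplicit false

namespace Pool.Agent.Results.MP_e74d26_an.CentralPart

open Pool.McT Filter Topology

theorem result {A B D : Type*} [CStarAlgebra A] [CStarAlgebra B] [CStarAlgebra D]
    (τA : A →ₗ[ℂ] ℂ) (τB : B →ₗ[ℂ] ℂ) (τD : D →ₗ[ℂ] ℂ) (iA : A →⋆ₐ[ℂ] D) (iB : B →⋆ₐ[ℂ] D)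
    (T : Tens τA τB τD iA iB) (hd : Dense2 τD iA iB) (hA : Fac τA) (hB : Fac τB)
    (sA : Sep τA) (sB : Sep τB) (mA : ¬ McDuff τA) (mB : ¬ McDuff τB) (f g : ℕ → D)
    (hf : CentralSeq τD f) (hg : CentralSeq τD g)
    (hz : ∀ ε : ℝ, 0 < ε → ∃ (k : ℕ) (C : ℝ), ∀ n, ∃ z : Fin k → D,
      (∀ i, Sand iA iB (z i) ∧ Sand iB iA (z i)) ∧ N τD (f n - (C : ℂ) • ∑ i, z i) ≤ ε) :
    Tendsto (fun n => N τD (cm (f n) (g n))) atTop (𝓝 0) :=
  center_seq T hd hA hB sA sB mA mB hf hg hz

end Pool.Agent.Results.MP_e74d26_an.CentralPart
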