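import Pool.Agent.McT.R.Abs

/-!
# McDuff tensor products and residual sequences

Let `A`, `B` be finite factors with separable predual (C*-algebras with a faithful tracial state,
2-norm complete unit ball, trivial centre, 2-norm separable) and `D = A ⊗ B` (commuting copies of
`A` and `B` in `D` which generate `D` in the 2-norm, product trace). Let `Q 0, Q 1, …` be von
Neumann subalgebras of `B` (unital *-subalgebras closed under norm bounded 2-norm limits) such
that (`Absorb`)

1. for all `x n`, `y n` in the unit ball of `Q n`, either both sequences are central sequences of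
`B` or `‖x n y n - y n x n‖₂ → 0`;
2. for every central sequence `x n` in the unit ball of `B` and every `δ > 0` there are infinitely
many `m` such that, for all large `n`, some `y` in the unit ball of `Q m` has
`‖x n - y‖₂² ≤ δ`.

If `D` is McDuff (some central sequences do not commute asymptotically), then `A` or `B` is
McDuff.

Special cases: `Q n` a residual sequence in McDuff's sense (decreasing, bounded `x n ∈ Q n` are
central, central sequences are asymptotically contained in every `Q m`); `Q n` abelian.
-/

set_option autoImplicit false

namespace Pool.Agent.Results.MP_e74d26_an.ResidualSequence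

open Pool.McT

theorem result {A B D : Type*} [CStarAlgebra A] [CStarAlgebra B] [CStarAlgebra D]
    (τA : A →ₗ[ℂ] ℂ) (τB : B →ₗ[ℂ] ℂ) (τD : D →ₗ[ℂ] ℂ) (iA : A →⋆ₐ[ℂ] D) (iB : B →⋆ₐ[ℂ] D)
    (hA : Fac τA) (hB : Fac τB) (sA : Sep τA) (sB : Sep τB) (T : Tens τA τB τD iA iB)
    (hd : Dense2 τD iA iB) (Q : ℕ → Set B) (hQ : Absorb τB Q) (hD : McDuff τD) :
    McDuff τA ∨ McDuff τB :=
  mcduff_of_absorb T hd hA hB sA sB hQ hD

end Pool.Agent.Results.MP_e74d26_an.ResidualSequence
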