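import Pool.Agent.McT.P.MainZ

/-!
# Commutators of central sequences of a tensor product are orthogonal to sandwich elements

Let `A`, `B` be finite factors with separable predual (C*-algebras with a faithful tracial state,
2-norm complete unit ball, trivial centre, 2-norm separable), neither of them McDuff (their central
sequences commute), and let `D` contain commuting copies of `A` and `B` which generate it in the
2-norm, with the product trace: `D = A ⊗ B`. An element `z` of `D` is a sandwich over `B` if
`z = ∑ α_l X_l β_l` with `X_l` in the unit ball of `A` and `α_l, β_l ∈ B`, `‖∑ α_l α_l*‖ ≤ 1`,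
`‖∑ β_l* β_l‖ ≤ 1`. For every `δ > 0` there are finite sets `F_A`, `F_B` and a constant `C` such
that for all `f, g ∈ D` and all `z ∈ D` which are sandwiches over `B` and over `A`
`|τ ((f g - g f) z)| ≤ δ (‖f‖₂² + ‖g‖₂²) + C (SS f + SS g)`, where `SS f` is the sum of the
squares of the 2-norms of the commutators of `f` and `f*` with the elements of `F_A` and `F_B`.

For instance `z = (x ⊗ y) d (x' ⊗ y')` with contractions `x, x', y, y'` and `d` in the unit ball
of the span of `D₁ ⊗ D₂`, `D₁ ⊂ A`, `D₂ ⊂ B` finite dimensional abelian algebras of any dimension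
(`Pool.McT.sand_of_diag`). So if `f`, `g` are central sequences of `A ⊗ B`, the conditional
expectation of `f g - g f` onto the algebra generated by `A^ω` and `B^ω` is zero.
-/

set_option autoImplicit false

namespace Pool.Agent.Results.MP_e74d26_an.SandwichTests

open Pool.McT

theorem result {A B D : Type*} [CStarAlgebra A] [CStarAlgebra B] [CStarAlgebra D]
    (τA : A →ₗ[ℂ] ℂ) (τB : B →ₗ[ℂ] ℂ) (τD : D →ₗ[ℂ] ℂ) (iA : A →⋆ₐ[ℂ] D) (iB : B →⋆ₐ[ℂ] D)
    (T : Tens τA τB τD iA iB) (hd : Dense2 τD iA iB) (hA : Fac τA) (hB : Fac τB)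
    (sA : Sep τA) (sB : Sep τB) (mA : ¬ McDuff τA) (mB : ¬ McDuff τB) (δ : ℝ) (hδ : 0 < δ) :
    ∃ (FA : Finset A) (FB : Finset B) (C : ℝ), 0 ≤ C ∧ ∀ (f g z : D), Sand iA iB z →
      Sand iB iA z → ‖τD ((f * g - g * f) * z)‖ ≤ δ * (N τD f + N τD g)
        + C * (SS τD iA iB FA FB f + SS τD iA iB FA FB g) :=
  sand_factors T hd hA hB sA sB mA mB hδ

end Pool.Agent.Results.MP_e74d26_an.SandwichTests
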