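import Pool.Agent.McT.Q.Unif

/-!
# A factor which is not McDuff and two partners

Let `A` be a finite factor with separable predual (C*-algebra with a faithful tracial state,
2-norm complete unit ball, trivial centre, 2-norm separable) which is not McDuff (its central
sequences commute). A partner of `A` is a C*-algebra `B` with a faithful tracial state together
with `D = A ⊗ B` (commuting copies which generate `D` in the 2-norm, product trace).

1. For every `δ > 0` there are a finite set `F` in `A` and a constant `C`, which depend only on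
`A` and `δ`, such that for every partner, all `f, g ∈ D` and all `X ∈ A`, `‖X‖ ≤ 1`:
`|τ ((f g - g f) X)| ≤ δ (‖f‖₂² + ‖g‖₂²) + C (S f + S g)`,
`S f = ∑_{u ∈ F} (‖f u - u f‖₂² + ‖f* u - u f*‖₂²)`.

2. For every `ε > 0` and `K` there are a finite set `F` in `A` and a constant `C`, which depend
only on `A`, `ε`, `K`, such that for all two partners `B₁`, `B₂` in a common algebra `E` (with
`B₂` commuting with `A ⊗ B₁` and independent of it) and all `f ∈ A ⊗ B₁`, `g ∈ A ⊗ B₂` of norm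
at most `K`: `‖f g - g f‖₂² ≤ ε + C (S f + S g)`.

3. If `f n ∈ A ⊗ B₁`, `g n ∈ A ⊗ B₂` are bounded and commute asymptotically with every element
of `A`, then `‖f n g n - g n f n‖₂ → 0` in `E`; `B₁`, `B₂`, `E` may depend on `n`.
-/

set_option autoImplicit false

namespace Pool.Agent.Results.MP_e74d26_an.TwoPartners

open Pool.McT Filter Topology

universe u v

theorem result {A : Type u} [CStarAlgebra A] (τA : A →ₗ[ℂ] ℂ) (hA : Fac τA) (sA : Sep τA)
    (mA : ¬ McDuff τA) :
    (∀ δ : ℝ, 0 < δ → ∃ (F : Finset A) (C : ℝ), 0 ≤ C ∧ ∀ (P : Partner.{u, v} τA)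
      (f g : P.D) (X : A), ‖X‖ ≤ 1 →
        ‖P.tst f g X‖ ≤ δ * (P.nn f + P.nn g) + C * (P.ss F f + P.ss F g)) ∧
    (∀ ε : ℝ, 0 < ε → ∀ K : ℝ, ∃ (F : Finset A) (C : ℝ), 0 ≤ C ∧
      ∀ (W : TwoPart.{u, v} τA) (f : W.P.D) (g : W.Q.D), ‖f‖ ≤ K → ‖g‖ ≤ K →
        W.cc f g ≤ ε + C * (W.P.ss F f + W.Q.ss F g)) ∧
    ∀ (W : ℕ → TwoPart.{u, v} τA) (f : ∀ n, (W n).P.D) (g : ∀ n, (W n).Q.D) (K : ℝ),
      (∀ n, ‖f n‖ ≤ K) → (∀ n, ‖g n‖ ≤ K) → AsyComm (fun n => (W n).P) f →
      AsyComm (fun n => (W n).Q) g → Tendsto (fun n => (W n).cc (f n) (g n)) atTop (𝓝 0) :=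
  ⟨fun _ hδ => one_uniform.{u, v} hA sA mA hδ, fun _ hε K => two_uniform.{u, v} hA sA mA hε K,
    fun W f g K => two_uniform_seq.{u, v} hA sA mA W f g K⟩

end Pool.Agent.Results.MP_e74d26_an.TwoPartners
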